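import Pool.Agent.QSX.StmtsM

set_option autoImplicit false

/-! Row ERG of the squad QSX: linear growth of a cocycle along commuting translations. -/

namespace Pool.Agent.QSX.H43

open Filter Topology Pool.Agent.QSX

theorem erg : ErgStmt := by
  intro G _ VX _ _ A Hs _ _ _ R b K C hA hR hb hK hC hbd
  -- basic facts
  have hA0 : A 0 = 1 := by
    have h := hA 0 0
    rw [add_zero] at h
    exact (mul_eq_left.1 h.symm)
  have hcomm : ∀ a a', A a * A a' = A a' * A a := fun a a' => by
    rw [← hA, ← hA, add_comm]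
  have hR1 : ∀ z, R 1 z = z := fun z => by
    have h := hR 1 1 z
    rw [mul_one] at h
    exact ((R 1).injective h).symm
  have hb1 : b 1 = 0 := by
    have h := hb 1 1
    rw [mul_one, hR1] at h
    exact left_eq_add.1 h
  have hsucc : ∀ (a : VX) (j : ℕ), b (A (((j + 1 : ℕ) : ℝ) • a)) =
      b (A a) + R (A a) (b (A ((j : ℝ) • a))) := fun a j => by
    rw [← hb, ← hA]
    congr 2
    push_cast
    rw [add_smul, one_smul, add_comm]
  have hsum : ∀ (a : VX) (j : ℕ), b (A ((j : ℝ) • a)) =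
      birkhoffSum ((R (A a)).toContinuousLinearMap) _root_.id j (b (A a)) := by
    intro a j
    induction j with
    | zero =>
      rw [Nat.cast_zero, zero_smul, hA0, hb1, birkhoffSum_zero]
    | succ j ih =>
      rw [hsucc, ih]
      unfold birkhoffSum
      rw [Finset.sum_range_succ', map_sum, add_comm]
      congr 1
      refine Finset.sum_congr rfl (fun i _ => ?_)
      rw [Function.iterate_succ_apply']
      rfl
  have hlim : ∀ a : VX, ∃ p : Hs, Tendsto (fun j : ℕ => ((j : ℝ)⁻¹) • b (A ((j : ℝ) • a))) atTop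
      (𝓝 p) := by
    intro a
    have h := ContinuousLinearMap.tendsto_birkhoffAverage_orthogonalProjection
      ((R (A a)).toContinuousLinearMap) (𝕜 := ℝ) (LinearIsometry.norm_toContinuousLinearMap_le _)
      (b (A a))
    refine ⟨_, h.congr (fun j => ?_)⟩
    unfold birkhoffAverage
    rw [hsum a j]
  choose P0 hP0 using hlim
  have hbound : ∀ a, ‖P0 a‖ ≤ K * ‖a‖ := by
    intro a
    have h1 : Tendsto (fun j : ℕ => K * ‖a‖ + (j : ℝ)⁻¹ * C) atTop (𝓝 (K * ‖a‖ + 0 * C)) :=
      tendsto_const_nhds.add (tendsto_inv_atTop_nhds_zero_nat.mul_const C)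
    rw [zero_mul, add_zero] at h1
    refine le_of_tendsto_of_tendsto' (hP0 a).norm h1 (fun j => ?_)
    rw [norm_smul, norm_inv, Real.norm_natCast]
    have h2 := hbd ((j : ℝ) • a)
    rw [norm_smul, Real.norm_natCast] at h2
    rcases Nat.eq_zero_or_pos j with hj | hj
    · rw [hj, Nat.cast_zero, inv_zero, zero_mul, zero_mul, add_zero]
      positivity
    · have hj' : (0 : ℝ) < j := by exact_mod_cast hj
      have h3 := mul_le_mul_of_nonneg_left h2 (inv_pos.2 hj').le
      refine h3.trans (le_of_eq ?_)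
      field_simp
  have hinv : ∀ a a', R (A a') (P0 a) = P0 a := by
    intro a a'
    have h1 : Tendsto (fun j : ℕ => R (A a') (((j : ℝ)⁻¹) • b (A ((j : ℝ) • a))) -
        ((j : ℝ)⁻¹) • b (A ((j : ℝ) • a))) atTop (𝓝 (R (A a') (P0 a) - P0 a)) :=
      (((R (A a')).continuous.tendsto _).comp (hP0 a)).sub (hP0 a)
    have h2 : Tendsto (fun j : ℕ => R (A a') (((j : ℝ)⁻¹) • b (A ((j : ℝ) • a))) -
        ((j : ℝ)⁻¹) • b (A ((j : ℝ) • a))) atTop (𝓝 0) := by
      have h3 : Tendsto (fun j : ℕ => (j : ℝ)⁻¹ * (‖b (A a')‖ + ‖b (A a')‖)) atTop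
          (𝓝 (0 * (‖b (A a')‖ + ‖b (A a')‖))) :=
        tendsto_inv_atTop_nhds_zero_nat.mul_const _
      rw [zero_mul] at h3
      refine squeeze_zero_norm (fun j => ?_) h3
      have h4 : b (A a') + R (A a') (b (A ((j : ℝ) • a))) =
          b (A ((j : ℝ) • a)) + R (A ((j : ℝ) • a)) (b (A a')) := by
        rw [← hb, ← hb, hcomm]
      have h5 : R (A a') (b (A ((j : ℝ) • a))) - b (A ((j : ℝ) • a)) =
          R (A ((j : ℝ) • a)) (b (A a')) - b (A a') := by
        rw [sub_eq_sub_iff_add_eq_add, add_comm, h4, add_comm]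
      rw [map_smul, ← smul_sub, h5, norm_smul, norm_inv, Real.norm_natCast]
      refine mul_le_mul_of_nonneg_left ((norm_sub_le _ _).trans ?_) (by positivity)
      rw [LinearIsometry.norm_map]
    exact sub_eq_zero.1 (tendsto_nhds_unique h1 h2)
  have hadd : ∀ a a', P0 (a + a') = P0 a + P0 a' := by
    intro a a'
    have h1 : Tendsto (fun j : ℕ => R (A ((j : ℝ) • a)) (((j : ℝ)⁻¹) • b (A ((j : ℝ) • a')) -
        P0 a')) atTop (𝓝 0) := by
      have h2 : Tendsto (fun j : ℕ => ‖((j : ℝ)⁻¹) • b (A ((j : ℝ) • a')) - P0 a'‖) atTop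
          (𝓝 0) := by
        have := ((hP0 a').sub_const (P0 a')).norm
        rwa [sub_self, norm_zero] at this
      refine squeeze_zero_norm (fun j => ?_) h2
      rw [LinearIsometry.norm_map]
    have h3 : Tendsto (fun j : ℕ => ((j : ℝ)⁻¹) • b (A ((j : ℝ) • (a + a')))) atTop
        (𝓝 (P0 a + (0 + P0 a'))) := by
      refine ((hP0 a).add (h1.add_const (P0 a'))).congr (fun j => ?_)
      rw [map_sub, hinv, sub_add_cancel, map_smul, ← smul_add, ← hb, ← hA, ← smul_add]
    rw [zero_add] at h3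
    exact tendsto_nhds_unique (hP0 (a + a')) h3
  have hcont : Continuous (AddMonoidHom.mk' P0 hadd) :=
    AddMonoidHomClass.continuous_of_bound (AddMonoidHom.mk' P0 hadd) K hbound
  exact ⟨((AddMonoidHom.mk' P0 hadd).toRealLinearMap hcont : VX →L[ℝ] Hs), hbound, hP0, hinv⟩

end Pool.Agent.QSX.H43
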