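import Pool.Agent.QSX.StmtsC

set_option autoImplicit false

/-! Row QCM of the squad QSX: composition of quasi-isometric embeddings. -/

namespace Pool.Agent.QSX.H43

open Pool.Agent.QSX

theorem qcm : QcmStmt := by
  intro A B D dA dB dD f g hf hg
  obtain ⟨L, C, hL, hC, h⟩ := hf
  obtain ⟨L', C', hL', hC', h'⟩ := hg
  refine ⟨L' * L, L' * C + C', by nlinarith, by positivity, fun x y => ?_⟩
  obtain ⟨h1, h2⟩ := h x y
  obtain ⟨h3, h4⟩ := h' (f x) (f y)
  have hL0 : 0 < L := by linarith
  have hL0' : 0 < L' := by linarith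
  constructor
  · have h5 : (dA x y / L - C) / L' ≤ dB (f x) (f y) / L' :=
      div_le_div_of_nonneg_right h1 hL0'.le
    have h6 : (dA x y / L - C) / L' = dA x y / (L' * L) - C / L' := by
      field_simp
    have h7 : C / L' ≤ L' * C := by
      rw [div_le_iff₀ hL0']
      nlinarith [mul_nonneg hC (show 0 ≤ L' - 1 by linarith), mul_nonneg hC hL0'.le,
        mul_nonneg (mul_nonneg hC hL0'.le) (show 0 ≤ L' - 1 by linarith)]
    dsimp only
    linarith
  · have h5 : L' * dB (f x) (f y) ≤ L' * (L * dA x y + C) :=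
      mul_le_mul_of_nonneg_left h2 hL0'.le
    dsimp only
    nlinarith

end Pool.Agent.QSX.H43
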